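import Pool.Agent.Helper43_HAM.Stmts

/-!
# HAB: Hamiltonian cycles of the flag graph are pairs (state, circuit meeting every edge)
-/

namespace Pool.Agent.HAM.H46

open Equiv

/-- exactly two of three -/
def Two (p q r : Prop) : Prop := (p ∧ q ∧ ¬ r) ∨ (p ∧ ¬ q ∧ r) ∨ (¬ p ∧ q ∧ r)

lemma ncard_two {α : Type} {a b c : α} (hab : a ≠ b) (hac : a ≠ c) (hbc : b ≠ c) {N : Set α}
    (hN : N ⊆ {a, b, c}) : N.ncard = 2 ↔ Two (a ∈ N) (b ∈ N) (c ∈ N) := by
  classical
  have hN' : N = {a, b, c} ∩ N := (Set.inter_eq_right.mpr hN).symm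
  by_cases ha : a ∈ N <;> by_cases hb : b ∈ N <;> by_cases hc : c ∈ N <;>
    simp only [Two, ha, hb, hc, not_true, not_false_iff, and_true, and_false, true_and,
      false_and, or_false, false_or, or_true, true_or, iff_true, iff_false]
  · have : N = {a, b, c} := by
      ext x; constructor
      · intro h; exact hN h
      · rintro (h | h | h) <;> (rw [h]; assumption)
    rw [this, Set.ncard_eq_three.mpr ⟨a, b, c, hab, hac, hbc, rfl⟩]
    norm_num
  · have : N = {a, b} := by
      ext x; constructor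
      · intro h
        rcases hN h with h1 | h1 | h1
        · exact Or.inl h1
        · exact Or.inr h1
        · exact absurd (h1 ▸ h) hc
      · rintro (h | h) <;> (rw [h]; assumption)
    rw [this, Set.ncard_pair hab]
  · have : N = {a, c} := by
      ext x; constructor
      · intro h
        rcases hN h with h1 | h1 | h1
        · exact Or.inl h1
        · exact absurd (h1 ▸ h) hb
        · exact Or.inr h1
      · rintro (h | h) <;> (rw [h]; assumption)
    rw [this, Set.ncard_pair hac]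
  · have : N = {a} := by
      ext x; constructor
      · intro h
        rcases hN h with h1 | h1 | h1
        · exact h1
        · exact absurd (h1 ▸ h) hb
        · exact absurd (h1 ▸ h) hc
      · intro h; rw [h]; exact ha
    rw [this, Set.ncard_singleton]
    norm_num
  · have : N = {b, c} := by
      ext x; constructor
      · intro h
        rcases hN h with h1 | h1 | h1
        · exact absurd (h1 ▸ h) ha
        · exact Or.inl h1
        · exact Or.inr h1
      · rintro (h | h) <;> (rw [h]; assumption)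
    rw [this, Set.ncard_pair hbc]
  · have : N = {b} := by
      ext x; constructor
      · intro h
        rcases hN h with h1 | h1 | h1
        · exact absurd (h1 ▸ h) ha
        · exact h1
        · exact absurd (h1 ▸ h) hc
      · intro h; rw [h]; exact hb
    rw [this, Set.ncard_singleton]
    norm_num
  · have : N = {c} := by
      ext x; constructor
      · intro h
        rcases hN h with h1 | h1 | h1
        · exact absurd (h1 ▸ h) ha
        · exact absurd (h1 ▸ h) hb
        · exact h1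
      · intro h; rw [h]; exact hc
    rw [this, Set.ncard_singleton]
    norm_num
  · have : N = ∅ := by
      ext x; constructor
      · intro h
        rcases hN h with h1 | h1 | h1
        · exact absurd (h1 ▸ h) ha
        · exact absurd (h1 ▸ h) hb
        · exact absurd (h1 ▸ h) hc
      · intro h; exact absurd h (Set.notMem_empty _)
    rw [this, Set.ncard_empty]
    norm_num

lemma H46_aux_inv {D : Type} (σ : Perm D) (y : D) : σ (σ⁻¹ y) = y := by simp

lemma prop1 {s c t t' m : Prop} (a : Two s c t) (h : t → (m ↔ (c ↔ t'))) :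
    (s ↔ ¬ (t ∧ t' ∧ m) ∧ ¬ (t ∧ ¬ t' ∧ ¬ m)) ∧ (c ↔ ¬ (t ∧ t' ∧ ¬ m) ∧ ¬ (t ∧ ¬ t' ∧ m)) := by
  unfold Two at a
  by_cases ht : t
  · have h1 := h ht
    by_cases h2 : t' <;> by_cases h3 : c <;> by_cases h4 : s <;> by_cases h5 : m <;> simp_all
  · by_cases h3 : c <;> by_cases h4 : s <;> simp_all

lemma prop2 {s c t s' c' t' r r' : Prop} (a1 : Two s c t) (a2 : Two s' c' t') (b1 : Two s c' r)
    (b2 : Two s' c r') (ht : t) : ((t ∧ (c ↔ t')) ∨ (t' ∧ (c' ↔ t))) ↔ (c ↔ t') := by
  unfold Two at a1 a2 b1 b2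
  by_cases ht' : t'
  · by_cases h1 : c <;> by_cases h2 : c' <;> simp_all
  · simp [ht, ht']

lemma prop3 {t t' m u : Prop} (h : t ∨ t') (b : Two (¬ (t ∧ t' ∧ m) ∧ ¬ (t ∧ ¬ t' ∧ ¬ m))
    (¬ (t' ∧ t ∧ ¬ m) ∧ ¬ (t' ∧ ¬ t ∧ m)) u) : (m → (u ↔ t')) ∧ (¬ m → (u ↔ t)) := by
  unfold Two at b
  by_cases h1 : t <;> by_cases h2 : t' <;> by_cases h3 : m <;> simp_all

section
variable {E : Type} [DecidableEq E] [Fintype E]

omit [DecidableEq E] [Fintype E] in
lemma opp_opp (x : Dart E) : opp (opp x) = x := by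
  rcases x with ⟨e, b⟩; simp [opp]

omit [DecidableEq E] [Fintype E] in
lemma opp_ne (x : Dart E) : opp x ≠ x := by
  rcases x with ⟨e, b⟩; simp [opp]

omit [DecidableEq E] [Fintype E] in
lemma opp_fst (x : Dart E) : (opp x).1 = x.1 := rfl

lemma flip_univ (x : Dart E) : flip Finset.univ x = opp x := by
  simp [flip, opp]

omit [Fintype E] in
lemma flip_mem {S : Finset E} {x : Dart E} (h : x.1 ∈ S) : flip S x = opp x := by
  simp [flip, opp, h]

omit [Fintype E] in
lemma flip_not_mem {S : Finset E} {x : Dart E} (h : x.1 ∉ S) : flip S x = x := by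
  simp [flip, h]

omit [Fintype E] in
lemma flip_fst (S : Finset E) (x : Dart E) : (flip S x).1 = x.1 := rfl

omit [Fintype E] in
lemma flip_flip (S : Finset E) (x : Dart E) : flip S (flip S x) = x := by
  by_cases h : x.1 ∈ S
  · rw [flip_mem h, flip_mem (by rw [opp_fst]; exact h), opp_opp]
  · rw [flip_not_mem h, flip_not_mem h]

omit [Fintype E] in
lemma flip_opp (S : Finset E) (x : Dart E) : flip S (opp x) = opp (flip S x) := by
  by_cases h : x.1 ∈ S
  · rw [flip_mem h, flip_mem (by rw [opp_fst]; exact h)]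
  · rw [flip_not_mem h, flip_not_mem (by rw [opp_fst]; exact h)]

lemma gr_adj (σ : Perm (Dart E)) (x y : Dart E) :
    (gr σ).Adj (x, false) (y, true) ↔ y = x ∨ y = opp x ∨ y = σ x := by
  unfold gr hgr
  simp [flip_univ]

lemma gr_adj' (σ : Perm (Dart E)) (x y : Dart E) :
    (gr σ).Adj (y, true) (x, false) ↔ y = x ∨ y = opp x ∨ y = σ x := by
  rw [SimpleGraph.adj_comm, gr_adj]

lemma gr_not (σ : Perm (Dart E)) (x y : Dart E) (b : Bool) : ¬ (gr σ).Adj (x, b) (y, b) := by
  unfold gr hgr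
  cases b <;> simp

/-- the straight edge at `x` -/
def sE (H : SimpleGraph (Dart E × Bool)) (x : Dart E) : Prop := H.Adj (x, false) (x, true)
/-- the crossing edge at `x` -/
def cE (H : SimpleGraph (Dart E × Bool)) (x : Dart E) : Prop := H.Adj (x, false) (opp x, true)
/-- the long edge at `x` -/
def tE (σ : Perm (Dart E)) (H : SimpleGraph (Dart E × Bool)) (x : Dart E) : Prop :=
  H.Adj (x, false) (σ x, true)

variable {σ : Perm (Dart E)}

lemma nbr_false (h1 : ∀ d, σ d ≠ d) (h2 : ∀ d, σ d ≠ opp d) {H : SimpleGraph (Dart E × Bool)}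
    (hH : H ≤ gr σ) (x : Dart E) :
    (H.neighborSet (x, false)).ncard = 2 ↔ Two (sE H x) (cE H x) (tE σ H x) := by
  have hN : H.neighborSet (x, false) ⊆ {(x, true), (opp x, true), (σ x, true)} := by
    rintro ⟨y, b⟩ hy
    have h3 := hH hy
    cases b with
    | false => exact absurd h3 (gr_not σ x y false)
    | true =>
      rw [gr_adj] at h3
      rcases h3 with h3 | h3 | h3
      · left; rw [h3]
      · right; left; rw [h3]
      · right; right; rw [h3]; rfl
  rw [ncard_two _ _ _ hN]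
  · rfl
  · intro h; exact opp_ne x (Prod.mk.inj h).1.symm
  · intro h; exact h1 x (Prod.mk.inj h).1.symm
  · intro h; exact h2 x (Prod.mk.inj h).1.symm

lemma nbr_true (h1 : ∀ d, σ d ≠ d) (h2 : ∀ d, σ d ≠ opp d) {H : SimpleGraph (Dart E × Bool)}
    (hH : H ≤ gr σ) (y : Dart E) :
    (H.neighborSet (y, true)).ncard = 2 ↔ Two (sE H y) (cE H (opp y)) (tE σ H (σ⁻¹ y)) := by
  have hN : H.neighborSet (y, true) ⊆ {(y, false), (opp y, false), (σ⁻¹ y, false)} := by
    rintro ⟨x, b⟩ hx
    have h3 := hH hx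
    cases b with
    | true => exact absurd h3 (gr_not σ y x true)
    | false =>
      rw [gr_adj'] at h3
      rcases h3 with h3 | h3 | h3
      · left; rw [h3]
      · right; left; rw [h3, opp_opp]
      · right; right; rw [h3]; simp
  rw [ncard_two _ _ _ hN]
  · have e1 : ((y, false) ∈ H.neighborSet (y, true)) ↔ sE H y := by
      rw [SimpleGraph.mem_neighborSet, SimpleGraph.adj_comm]; rfl
    have e2 : ((opp y, false) ∈ H.neighborSet (y, true)) ↔ cE H (opp y) := by
      rw [SimpleGraph.mem_neighborSet, SimpleGraph.adj_comm, cE, opp_opp]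
    have e3 : ((σ⁻¹ y, false) ∈ H.neighborSet (y, true)) ↔ tE σ H (σ⁻¹ y) := by
      rw [SimpleGraph.mem_neighborSet, SimpleGraph.adj_comm, tE, H46_aux_inv]
    rw [e1, e2, e3]
  · intro h; exact opp_ne y (Prod.mk.inj h).1.symm
  · intro h
    have h3 := (Prod.mk.inj h).1
    apply h1 y
    conv_lhs => rw [h3]
    simp
  · intro h
    have h3 := (Prod.mk.inj h).1
    apply h2 (opp y)
    rw [opp_opp]
    conv_lhs => rw [h3]
    simp

/-- the graph of a state and a circuit -/
def HG (σ : Perm (Dart E)) (S : Finset E) (T : Set (Dart E)) : SimpleGraph (Dart E × Bool) where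
  Adj u v := ((gr σ).Adj u v) ∧
    ((u.2 = false ∧ v.2 = true ∧ (
      (v.1 = u.1 ∧ ¬ (u.1 ∈ T ∧ opp u.1 ∈ T ∧ u.1.1 ∈ S) ∧ ¬ (u.1 ∈ T ∧ opp u.1 ∉ T ∧ u.1.1 ∉ S)) ∨
      (v.1 = opp u.1 ∧ ¬ (u.1 ∈ T ∧ opp u.1 ∈ T ∧ u.1.1 ∉ S) ∧
        ¬ (u.1 ∈ T ∧ opp u.1 ∉ T ∧ u.1.1 ∈ S)) ∨
      (v.1 = σ u.1 ∧ u.1 ∈ T))) ∨
    (v.2 = false ∧ u.2 = true ∧ (
      (u.1 = v.1 ∧ ¬ (v.1 ∈ T ∧ opp v.1 ∈ T ∧ v.1.1 ∈ S) ∧ ¬ (v.1 ∈ T ∧ opp v.1 ∉ T ∧ v.1.1 ∉ S)) ∨
      (u.1 = opp v.1 ∧ ¬ (v.1 ∈ T ∧ opp v.1 ∈ T ∧ v.1.1 ∉ S) ∧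
        ¬ (v.1 ∈ T ∧ opp v.1 ∉ T ∧ v.1.1 ∈ S)) ∨
      (u.1 = σ v.1 ∧ v.1 ∈ T))))
  symm := ⟨fun _ _ h => ⟨h.1.symm, h.2.symm⟩⟩
  loopless := ⟨fun _ h => h.1.ne rfl⟩

lemma HG_le (S : Finset E) (T : Set (Dart E)) : HG σ S T ≤ gr σ := fun _ _ h => h.1

lemma HG_s (h1 : ∀ d, σ d ≠ d) (S : Finset E) (T : Set (Dart E)) (x : Dart E) :
    sE (HG σ S T) x ↔ ¬ (x ∈ T ∧ opp x ∈ T ∧ x.1 ∈ S) ∧ ¬ (x ∈ T ∧ opp x ∉ T ∧ x.1 ∉ S) := by
  have e1 : (gr σ).Adj (x, false) (x, true) := (gr_adj σ x x).mpr (Or.inl rfl)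
  have e2 : x ≠ opp x := (opp_ne x).symm
  have e3 : x ≠ σ x := (h1 x).symm
  unfold sE HG
  simp [e1, e2, e3]

lemma HG_c (h2 : ∀ d, σ d ≠ opp d) (S : Finset E) (T : Set (Dart E)) (x : Dart E) :
    cE (HG σ S T) x ↔ ¬ (x ∈ T ∧ opp x ∈ T ∧ x.1 ∉ S) ∧ ¬ (x ∈ T ∧ opp x ∉ T ∧ x.1 ∈ S) := by
  have e1 : (gr σ).Adj (x, false) (opp x, true) := (gr_adj σ x _).mpr (Or.inr (Or.inl rfl))
  have e2 : opp x ≠ x := opp_ne x
  have e3 : opp x ≠ σ x := (h2 x).symm
  unfold cE HG
  simp [e1, e2, e3]

lemma HG_t (h1 : ∀ d, σ d ≠ d) (h2 : ∀ d, σ d ≠ opp d) (S : Finset E) (T : Set (Dart E))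
    (x : Dart E) : tE σ (HG σ S T) x ↔ x ∈ T := by
  have e1 : (gr σ).Adj (x, false) (σ x, true) := (gr_adj σ x _).mpr (Or.inr (Or.inr rfl))
  unfold tE HG
  simp [e1, h1 x, h2 x]

/-- a subgraph of `gr σ` is determined by its three sets of edges -/
lemma ext_graph {H H' : SimpleGraph (Dart E × Bool)} (hH : H ≤ gr σ) (hH' : H' ≤ gr σ)
    (hs : ∀ x, sE H x ↔ sE H' x) (hc : ∀ x, cE H x ↔ cE H' x) (ht : ∀ x, tE σ H x ↔ tE σ H' x) :
    H = H' := by
  have key : ∀ x y : Dart E, H.Adj (x, false) (y, true) ↔ H'.Adj (x, false) (y, true) := by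
    intro x y
    constructor
    · intro h
      rcases (gr_adj σ x y).mp (hH h) with h3 | h3 | h3
      · subst h3; exact (hs _).mp h
      · subst h3; exact (hc _).mp h
      · subst h3; exact (ht _).mp h
    · intro h
      rcases (gr_adj σ x y).mp (hH' h) with h3 | h3 | h3
      · subst h3; exact (hs _).mpr h
      · subst h3; exact (hc _).mpr h
      · subst h3; exact (ht _).mpr h
  ext ⟨x, b⟩ ⟨y, c⟩
  cases b <;> cases c
  · exact ⟨fun h => absurd (hH h) (gr_not σ _ _ _), fun h => absurd (hH' h) (gr_not σ _ _ _)⟩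
  · exact key x y
  · rw [SimpleGraph.adj_comm, SimpleGraph.adj_comm H']
    exact key y x
  · exact ⟨fun h => absurd (hH h) (gr_not σ _ _ _), fun h => absurd (hH' h) (gr_not σ _ _ _)⟩

omit [Fintype E] in
/-- `σ⁻¹ y` is on the circuit iff `flip S y` is -/
lemma circ_inv {S : Finset E} {T : Set (Dart E)} (hT : IsCycleOf (rho σ S) T) (y : Dart E) :
    σ⁻¹ y ∈ T ↔ flip S y ∈ T := by
  obtain ⟨x, rfl⟩ := hT
  have e : flip S y = rho σ S (σ⁻¹ y) := by
    simp [rho]
  rw [e, Set.mem_ofPred_eq, Set.mem_ofPred_eq, Perm.sameCycle_apply_right]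

lemma HG_two_false (h1 : ∀ d, σ d ≠ d) (h2 : ∀ d, σ d ≠ opp d) {S : Finset E}
    {T : Set (Dart E)} (hE : ∀ x, x ∈ T ∨ opp x ∈ T) (x : Dart E) :
    ((HG σ S T).neighborSet (x, false)).ncard = 2 := by
  rw [nbr_false h1 h2 (HG_le S T), HG_s h1, HG_c h2, HG_t h1 h2]
  have := hE x
  by_cases ha : x ∈ T <;> by_cases hb : opp x ∈ T <;> by_cases hc : x.1 ∈ S <;>
    simp_all [Two]

lemma HG_two_true (h1 : ∀ d, σ d ≠ d) (h2 : ∀ d, σ d ≠ opp d) {S : Finset E}
    {T : Set (Dart E)} (hT : IsCycleOf (rho σ S) T) (hE : ∀ x, x ∈ T ∨ opp x ∈ T) (y : Dart E) :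
    ((HG σ S T).neighborSet (y, true)).ncard = 2 := by
  rw [nbr_true h1 h2 (HG_le S T), HG_s h1, HG_c h2, HG_t h1 h2, circ_inv hT, opp_opp, opp_fst]
  have := hE y
  by_cases ha : y ∈ T <;> by_cases hb : opp y ∈ T <;> by_cases hc : y.1 ∈ S <;>
    simp_all [Two, flip_mem, flip_not_mem]

lemma HG_conn (h1 : ∀ d, σ d ≠ d) (h2 : ∀ d, σ d ≠ opp d) {S : Finset E}
    {T : Set (Dart E)} (hT : IsCycleOf (rho σ S) T) (hE : ∀ x, x ∈ T ∨ opp x ∈ T) :
    (HG σ S T).Connected := by
  set H := HG σ S T with hH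
  have hs : ∀ x, _ → H.Reachable (x, false) (x, true) :=
    fun x h => SimpleGraph.Adj.reachable ((HG_s h1 S T x).mpr h)
  have hc : ∀ x, _ → H.Reachable (x, false) (opp x, true) :=
    fun x h => SimpleGraph.Adj.reachable ((HG_c h2 S T x).mpr h)
  have ht : ∀ x, x ∈ T → H.Reachable (x, false) (σ x, true) :=
    fun x h => SimpleGraph.Adj.reachable ((HG_t h1 h2 S T x).mpr h)
  have hclosed : ∀ x, x ∈ T → rho σ S x ∈ T := by
    obtain ⟨x0, rfl⟩ := hT
    intro x hx
    rw [Set.mem_ofPred_eq, Perm.sameCycle_apply_right]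
    exact hx
  -- the four cycle of an edge with only one dart in `T` is connected
  have hfour : ∀ x, x ∈ T → opp x ∉ T → H.Reachable (x, false) (x, true) ∧
      H.Reachable (x, false) (opp x, true) ∧ H.Reachable (x, false) (opp x, false) := by
    intro x hx hx'
    have a1 : H.Reachable (opp x, false) (opp x, true) := hs _ (by
      rw [opp_opp]; exact ⟨fun h => hx' h.1, fun h => hx' h.1⟩)
    have a2 : H.Reachable (opp x, false) (x, true) := by
      have := hc (opp x) (by rw [opp_opp]; exact ⟨fun h => hx' h.1, fun h => hx' h.1⟩)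
      rwa [opp_opp] at this
    by_cases hS : x.1 ∈ S
    · have a3 : H.Reachable (x, false) (x, true) := hs _
        ⟨fun h => hx' h.2.1, fun h => h.2.2 hS⟩
      exact ⟨a3, a3.trans (a2.symm.trans a1), a3.trans a2.symm⟩
    · have a3 : H.Reachable (x, false) (opp x, true) := hc _
        ⟨fun h => hx' h.2.1, fun h => hS h.2.2⟩
      exact ⟨a3.trans (a1.symm.trans a2), a3, a3.trans a1.symm⟩
  -- the vertex `(y, true)` is connected with `(flip S y, false)` if `flip S y` is in `T`
  have hflip : ∀ y, flip S y ∈ T → H.Reachable (y, true) (flip S y, false) := by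
    intro y hy
    by_cases hS : y.1 ∈ S
    · rw [flip_mem hS] at hy ⊢
      by_cases hy' : y ∈ T
      · have := hc (opp y) (by
          rw [opp_opp]; exact ⟨fun h => h.2.2 hS, fun h => h.2.1 hy'⟩)
        rw [opp_opp] at this
        exact this.symm
      · have := (hfour (opp y) hy (by rw [opp_opp]; exact hy')).2.1
        rw [opp_opp] at this
        exact this.symm
    · rw [flip_not_mem hS] at hy ⊢
      by_cases hy' : opp y ∈ T
      · exact (hs y ⟨fun h => hS h.2.2, fun h => h.2.1 hy'⟩).symm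
      · exact (hfour y hy hy').1.symm
  have hstep : ∀ x, x ∈ T → H.Reachable (x, false) (rho σ S x, false) := by
    intro x hx
    have e : rho σ S x = flip S (σ x) := rfl
    have := hclosed x hx
    rw [e] at this ⊢
    exact (ht x hx).trans (hflip _ this)
  obtain ⟨x0, hx0⟩ := hT
  have hx0T : x0 ∈ T := by rw [hx0]; exact Perm.SameCycle.refl _ _
  have hpow : ∀ n : ℕ, ((rho σ S) ^ n) x0 ∈ T ∧
      H.Reachable (x0, false) (((rho σ S) ^ n) x0, false) := by
    intro n
    induction n with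
    | zero => exact ⟨hx0T, SimpleGraph.Reachable.refl _⟩
    | succ n ih =>
      rw [pow_succ', Perm.mul_apply]
      exact ⟨hclosed _ ih.1, ih.2.trans (hstep _ ih.1)⟩
  have hall : ∀ x, x ∈ T → H.Reachable (x0, false) (x, false) := by
    intro x hx
    rw [hx0, Set.mem_ofPred_eq] at hx
    obtain ⟨n, hn⟩ := hx.exists_nat_pow_eq
    rw [← hn]
    exact (hpow n).2
  have hff : ∀ x, H.Reachable (x0, false) (x, false) := by
    intro x
    by_cases hx : x ∈ T
    · exact hall x hx
    · have hx' := (hE x).resolve_left hx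
      have := (hfour (opp x) hx' (by rw [opp_opp]; exact hx)).2.2
      rw [opp_opp] at this
      exact (hall _ hx').trans this
  have htt : ∀ y, H.Reachable (x0, false) (y, true) := by
    intro y
    by_cases hy : flip S y ∈ T
    · exact (hff _).trans (hflip y hy).symm
    · have hy' : opp (flip S y) ∈ T := (hE _).resolve_left hy
      have h4 := hfour _ hy' (by rw [opp_opp]; exact hy)
      rw [opp_opp] at h4
      by_cases hS : y.1 ∈ S
      · rw [flip_mem hS, opp_opp] at h4
        exact (hff _).trans h4.1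
      · rw [flip_not_mem hS] at h4
        exact (hff _).trans h4.2.1
  haveI : Nonempty (Dart E × Bool) := ⟨(x0, false)⟩
  refine SimpleGraph.Connected.mk ?_
  have hbase : ∀ v, H.Reachable (x0, false) v := by
    rintro ⟨y, b⟩
    cases b
    · exact hff y
    · exact htt y
  intro u v
  exact (hbase u).symm.trans (hbase v)

/-- the circuit and the state of a subgraph -/
lemma HG_inj (h1 : ∀ d, σ d ≠ d) (h2 : ∀ d, σ d ≠ opp d) {S S' : Finset E}
    {T T' : Set (Dart E)} (hE : ∀ x, x ∈ T ∨ opp x ∈ T) (h : HG σ S T = HG σ S' T') :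
    S = S' ∧ T = T' := by
  have hT : T = T' := by
    ext x
    rw [← HG_t h1 h2 S T, h, HG_t h1 h2]
  subst hT
  refine ⟨?_, rfl⟩
  have key : ∀ x : Dart E, x ∈ T → (x.1 ∈ S ↔ x.1 ∈ S') := by
    intro x hx
    have h3 : cE (HG σ S T) x ↔ cE (HG σ S' T) x := by rw [h]
    rw [HG_c h2, HG_c h2] at h3
    by_cases hx' : opp x ∈ T <;> by_cases h5 : x.1 ∈ S <;> by_cases h6 : x.1 ∈ S' <;>
      simp_all
  ext e
  rcases hE (e, false) with h3 | h3
  · exact key _ h3
  · exact key _ h3

open Classical in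
lemma surj (h1 : ∀ d, σ d ≠ d) (h2 : ∀ d, σ d ≠ opp d) {H : SimpleGraph (Dart E × Bool)}
    (hH : H ≤ gr σ) (hconn : H.Connected) (h2r : ∀ v, (H.neighborSet v).ncard = 2) :
    ∃ (S : Finset E) (T : Set (Dart E)), IsCycleOf (rho σ S) T ∧ (∀ x, x ∈ T ∨ opp x ∈ T) ∧
      HG σ S T = H := by
  have F1 : ∀ x, Two (sE H x) (cE H x) (tE σ H x) := fun x => (nbr_false h1 h2 hH x).mp (h2r _)
  have F2 : ∀ y, Two (sE H y) (cE H (opp y)) (tE σ H (σ⁻¹ y)) :=
    fun y => (nbr_true h1 h2 hH y).mp (h2r _)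
  -- a set of vertices closed under adjacency contains everything
  have hclo : ∀ (W : Dart E × Bool → Prop), (∀ u v, H.Adj u v → W u → W v) → ∀ u, W u → ∀ v, W v := by
    intro W hW u hu v
    obtain ⟨p⟩ := hconn.preconnected u v
    induction p with
    | nil => exact hu
    | cons hadj _ ih => exact ih (hW _ _ hadj hu)
  have F3 : ∀ x, tE σ H x ∨ tE σ H (opp x) := by
    intro x
    by_contra hno
    rw [not_or] at hno
    obtain ⟨n1, n2⟩ := hno
    have a1 := F1 x
    have a2 := F1 (opp x)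
    have b1 := F2 x
    have b2 := F2 (opp x)
    rw [opp_opp] at b2
    have hs1 : sE H x := by unfold Two at a1; tauto
    have hc1 : cE H x := by unfold Two at a1; tauto
    have hs2 : sE H (opp x) := by unfold Two at a2; tauto
    have hc2 : cE H (opp x) := by unfold Two at a2; tauto
    have ht1 : ¬ tE σ H (σ⁻¹ x) := by unfold Two at b1; tauto
    have ht2 : ¬ tE σ H (σ⁻¹ (opp x)) := by unfold Two at b2; tauto
    have hW : ∀ v : Dart E × Bool, v.1 = x ∨ v.1 = opp x := by
      apply hclo (fun v => v.1 = x ∨ v.1 = opp x) _ (x, false) (Or.inl rfl)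
      rintro ⟨u, b⟩ ⟨v, c⟩ hadj hu
      have hg := hH hadj
      cases b <;> cases c
      · exact absurd hg (gr_not σ _ _ _)
      · rw [gr_adj] at hg
        rcases hg with hg | hg | hg
        · rw [hg]; exact hu
        · rcases hu with hu | hu
          · right; simp only at hu ⊢; rw [hg, hu]
          · left; simp only at hu ⊢; rw [hg, hu, opp_opp]
        · exfalso
          simp only at hu
          subst hg
          rcases hu with hu | hu <;> subst hu
          · exact n1 hadj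
          · exact n2 hadj
      · rw [gr_adj'] at hg
        rcases hg with hg | hg | hg
        · rw [← hg]; exact hu
        · have hg' : v = opp u := by rw [hg, opp_opp]
          rcases hu with hu | hu
          · right; simp only at hu ⊢; rw [hg', hu]
          · left; simp only at hu ⊢; rw [hg', hu, opp_opp]
        · exfalso
          have hg' : v = σ⁻¹ u := by rw [hg]; simp
          simp only at hu
          have hadj' : tE σ H (σ⁻¹ u) := by
            unfold tE
            rw [H46_aux_inv, ← hg']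
            exact hadj.symm
          rcases hu with hu | hu <;> subst hu
          · exact ht1 hadj'
          · exact ht2 hadj'
      · exact absurd hg (gr_not σ _ _ _)
    rcases hW (σ x, false) with h3 | h3
    · exact h1 x h3
    · exact h2 x h3
  set T : Set (Dart E) := {x | tE σ H x} with hT
  set q : Dart E → Prop := fun x => tE σ H x ∧ (cE H x ↔ tE σ H (opp x)) with hq
  set S : Finset E := Finset.univ.filter (fun e => q (e, false) ∨ q (e, true)) with hS
  have hS' : ∀ x : Dart E, x.1 ∈ S ↔ q x ∨ q (opp x) := by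
    rintro ⟨e, b⟩
    rw [hS, Finset.mem_filter]
    cases b
    · simp [opp]
    · simp only [Finset.mem_univ, true_and]
      exact or_comm
  have F4 : ∀ x, tE σ H x → (x.1 ∈ S ↔ (cE H x ↔ tE σ H (opp x))) := by
    intro x hx
    rw [hS' x, hq]
    simp only [opp_opp]
    have b2 := F2 (opp x)
    rw [opp_opp] at b2
    exact prop2 (F1 x) (F1 (opp x)) (F2 x) b2 hx
  have G1 : ∀ x, sE H x ↔ ¬ (x ∈ T ∧ opp x ∈ T ∧ x.1 ∈ S) ∧ ¬ (x ∈ T ∧ opp x ∉ T ∧ x.1 ∉ S) :=
    fun x => (prop1 (F1 x) (F4 x)).1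
  have G2 : ∀ x, cE H x ↔ ¬ (x ∈ T ∧ opp x ∈ T ∧ x.1 ∉ S) ∧ ¬ (x ∈ T ∧ opp x ∉ T ∧ x.1 ∈ S) :=
    fun x => (prop1 (F1 x) (F4 x)).2
  have G3 : ∀ y, σ⁻¹ y ∈ T ↔ flip S y ∈ T := by
    intro y
    have b1 := F2 y
    have g2 := G2 (opp y)
    have f3 : y ∈ T ∨ opp y ∈ T := F3 y
    rw [opp_opp, opp_fst] at g2
    rw [G1 y, g2] at b1
    have e : tE σ H (σ⁻¹ y) ↔ σ⁻¹ y ∈ T := Iff.rfl
    rw [e] at b1
    have h5 := prop3 f3 b1
    by_cases hS1 : y.1 ∈ S
    · rw [flip_mem hS1]
      exact h5.1 hS1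
    · rw [flip_not_mem hS1]
      exact h5.2 hS1
  have G4 : ∀ x, x ∈ T → rho σ S x ∈ T := by
    intro x hx
    have := G3 (σ x)
    have e : σ⁻¹ (σ x) = x := by simp
    rw [e] at this
    exact this.mp hx
  -- anchors
  set anc : Dart E × Bool → Dart E := fun v =>
    let z := if v.2 = false then v.1 else flip S v.1
    if z ∈ T then z else opp z with hanc
  obtain ⟨v0⟩ := hconn.nonempty
  have hanc1 : ∀ x, x ∈ T → anc (x, false) = x := by
    intro x hx
    simp [hanc, hx]
  have hancT : ∀ v, anc v ∈ T := by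
    intro v
    simp only [hanc]
    split_ifs with h3 h4 h4
    · exact h4
    · exact (F3 _).resolve_left h4
    · exact h4
    · exact (F3 _).resolve_left h4
  -- if only one dart of an edge is in `T`, it is the anchor
  have hancU : ∀ (v : Dart E × Bool) (z : Dart E), v.1.1 = z.1 → z ∈ T → opp z ∉ T → anc v = z := by
    intro v z hvz hz hz'
    have h3 : anc v = z ∨ anc v = opp z := by
      have h4 : (anc v).1 = z.1 := by
        simp only [hanc]
        split_ifs
        · exact hvz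
        · exact hvz
        · exact hvz
        · exact hvz
      rcases hav : anc v with ⟨e, b⟩
      rcases z with ⟨e', b'⟩
      rw [hav] at h4
      simp only at h4
      subst h4
      cases b <;> cases b' <;> simp [opp]
    rcases h3 with h3 | h3
    · exact h3
    · exact absurd (h3 ▸ hancT v) hz'
  have key : ∀ x y, H.Adj (x, false) (y, true) →
      (rho σ S).SameCycle (anc (x, false)) (anc (y, true)) := by
    intro x y hadj
    rcases (gr_adj σ x y).mp (hH hadj) with h3 | h3 | h3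
    · subst h3
      have e : anc (y, false) = anc (y, true) := by
        by_cases hy : y ∈ T <;> by_cases hy' : opp y ∈ T
        · have : y.1 ∉ S := by
            intro hS1
            exact ((G1 y).mp hadj).1 ⟨hy, hy', hS1⟩
          simp [hanc, flip_not_mem this]
        · rw [hancU (y, false) y rfl hy hy', hancU (y, true) y rfl hy hy']
        · rw [hancU (y, false) (opp y) rfl hy' (by rw [opp_opp]; exact hy),
            hancU (y, true) (opp y) rfl hy' (by rw [opp_opp]; exact hy)]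
        · exact absurd (F3 y) (by rw [not_or]; exact ⟨hy, hy'⟩)
      rw [e]
    · subst h3
      have e : anc (x, false) = anc (opp x, true) := by
        by_cases hy : x ∈ T <;> by_cases hy' : opp x ∈ T
        · have : x.1 ∈ S := by
            by_contra hS1
            exact ((G2 x).mp hadj).1 ⟨hy, hy', hS1⟩
          have h5 : flip S (opp x) = x := by
            rw [flip_mem (by rw [opp_fst]; exact this), opp_opp]
          simp [hanc, h5]
        · rw [hancU (x, false) x rfl hy hy', hancU (opp x, true) x rfl hy hy']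
        · rw [hancU (x, false) (opp x) rfl hy' (by rw [opp_opp]; exact hy),
            hancU (opp x, true) (opp x) rfl hy' (by rw [opp_opp]; exact hy)]
        · exact absurd (F3 x) (by rw [not_or]; exact ⟨hy, hy'⟩)
      rw [e]
    · subst h3
      have hx : x ∈ T := hadj
      have e : anc (σ x, true) = rho σ S x := by
        have h5 : flip S (σ x) ∈ T := G4 x hx
        simp only [hanc]
        simp [h5]
        rfl
      rw [hanc1 x hx, e, Perm.sameCycle_apply_right]
  have hall : ∀ v, (rho σ S).SameCycle (anc v0) (anc v) := by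
    apply hclo (fun v => (rho σ S).SameCycle (anc v0) (anc v)) _ v0 (Perm.SameCycle.refl _ _)
    rintro ⟨u, b⟩ ⟨v, c⟩ hadj hu
    cases b <;> cases c
    · exact absurd (hH hadj) (gr_not σ _ _ _)
    · exact hu.trans (key u v hadj)
    · exact hu.trans (key v u hadj.symm).symm
    · exact absurd (hH hadj) (gr_not σ _ _ _)
  refine ⟨S, T, ⟨anc v0, ?_⟩, F3, ?_⟩
  · ext y
    constructor
    · intro hy
      have := hall (y, false)
      rwa [hanc1 y hy] at this
    · intro hy
      rw [Set.mem_ofPred_eq] at hy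
      obtain ⟨n, hn⟩ := hy.exists_nat_pow_eq
      rw [← hn]
      clear hn
      induction n with
      | zero => exact hancT v0
      | succ n ih =>
        rw [pow_succ', Perm.mul_apply]
        exact G4 _ ih
  · apply ext_graph (HG_le S T) hH
    · intro x; rw [HG_s h1, G1]
    · intro x; rw [HG_c h2, G2]
    · intro x; rw [HG_t h1 h2]; rfl

end

theorem hab : HabStmt := by
  intro E _ _ σ h1 h2
  unfold hamCount pairs
  symm
  have hE : ∀ {T : Set (Dart E)}, (∀ e, (e, false) ∈ T ∨ (e, true) ∈ T) ↔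
      (∀ x : Dart E, x ∈ T ∨ opp x ∈ T) := by
    intro T
    constructor
    · rintro h ⟨e, b⟩
      cases b
      · exact h e
      · exact (h e).symm
    · intro h e
      exact h (e, false)
  refine Nat.card_congr (Equiv.ofBijective (fun p => ⟨HG σ p.1.1 p.1.2, HG_le _ _,
    HG_conn h1 h2 p.2.1 (hE.mp p.2.2), ?_⟩) ⟨?_, ?_⟩)
  · rintro ⟨x, b⟩
    cases b
    · exact HG_two_false h1 h2 (hE.mp p.2.2) x
    · exact HG_two_true h1 h2 p.2.1 (hE.mp p.2.2) x
  · intro p p' h
    have h3 : HG σ p.1.1 p.1.2 = HG σ p'.1.1 p'.1.2 := congrArg Subtype.val h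
    have h4 := HG_inj h1 h2 (hE.mp p.2.2) h3
    exact Subtype.ext (Prod.ext h4.1 h4.2)
  · rintro ⟨H, hH, hconn, h2r⟩
    obtain ⟨S, T, hT, hE', hG⟩ := surj h1 h2 hH hconn h2r
    exact ⟨⟨(S, T), hT, hE.mpr hE'⟩, Subtype.ext hG⟩

end Pool.Agent.HAM.H46
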