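import Pool.Agent.Helper43_HAM.Stmts

/-!
# PRI: the edge list can be printed
-/

namespace Pool.Agent.HAM.H46

open Pool.Agent.Common_CookLevin

/-! ### The list of a formula -/

section
variable {A β : Type}

lemma each_left (F : A ⊕ Unit → List (A ⊕ Unit) → List β) (G : A → ℕ → List β)
    (h : ∀ a w, F (Sum.inl a) w = G a w.length) : ∀ (v : List A) (u : List (A ⊕ Unit)),
    eachWord Sum.isLeft F u (v.map Sum.inl) = (v.zipIdx u.length).flatMap fun x => G x.1 x.2
  | [], u => by simp [eachWord]
  | a :: v, u => by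
    rw [List.map_cons, eachWord, each_left F G h v, h]
    simp [List.zipIdx_cons]

lemma each_left_inr (F : A ⊕ Unit → List (A ⊕ Unit) → List β)
    (h : ∀ w, F (Sum.inr ()) w = []) : ∀ (M : ℕ) (u : List (A ⊕ Unit)),
    eachWord Sum.isLeft F u (List.replicate M (Sum.inr ())) = []
  | 0, u => by simp [eachWord]
  | M + 1, u => by
    rw [List.replicate_succ, eachWord, each_left_inr F h M, h]
    rfl

lemma each_right (F : A ⊕ Unit → List (A ⊕ Unit) → List β) (G : ℕ → List β)
    (h : ∀ w, F (Sum.inr ()) w = G w.length) : ∀ (M : ℕ) (u : List (A ⊕ Unit)),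
    eachWord Sum.isRight F u (List.replicate M (Sum.inr ())) = (List.range' u.length M).flatMap G
  | 0, u => by simp [eachWord]
  | M + 1, u => by
    rw [List.replicate_succ, eachWord, each_right F G h M, h]
    simp [List.range'_succ]

lemma each_right_inl (F : A ⊕ Unit → List (A ⊕ Unit) → List β)
    (h : ∀ a w, F (Sum.inl a) w = []) : ∀ (v : List A) (u : List (A ⊕ Unit)),
    eachWord Sum.isRight F u (v.map Sum.inl) = []
  | [], u => by simp [eachWord]
  | a :: v, u => by
    rw [List.map_cons, eachWord, each_right_inl F h v, h]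
    rfl

lemma pairsOf_append (F G : CNF) : pairsOf (F ++ G) = pairsOf F ++ pairsOf G := List.map_append

lemma pairsOf_flatMap {ι : Type} (l : List ι) (F : ι → CNF) :
    pairsOf (l.flatMap F) = l.flatMap fun x => pairsOf (F x) := by
  unfold pairsOf
  rw [List.map_flatMap]

lemma tev_append (p m M : ℕ) (F G : List (List LLit)) :
    tev p m M (F ++ G) = tev p m M F ++ tev p m M G := List.map_append

lemma tev_flatMap {ι : Type} (p m M : ℕ) (l : List ι) (F : ι → List (List LLit)) :
    tev p m M (l.flatMap F) = l.flatMap fun x => tev p m M (F x) := by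
  unfold tev
  rw [List.map_flatMap]

lemma formula_eq (hd : List (List LLit)) (atL : A → List (List LLit))
    (atR : List (List LLit)) (v : List A) (M : ℕ) :
    formula hd atL atR (v.map Sum.inl ++ List.replicate M (Sum.inr ())) =
      tev 0 v.length M hd ++ ((v.zipIdx.flatMap fun x => tev x.2 v.length M (atL x.1)) ++
        (List.range M).flatMap fun p => tev p v.length M atR) := by
  have c1 : (v.map Sum.inl ++ List.replicate M (Sum.inr ()) : List (A ⊕ Unit)).countP Sum.isLeft =
      v.length := by
    rw [List.countP_append, List.countP_map, List.countP_replicate]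
    simp [Function.comp_def]
  have c2 : (v.map Sum.inl ++ List.replicate M (Sum.inr ()) : List (A ⊕ Unit)).countP Sum.isRight =
      M := by
    rw [List.countP_append, List.countP_map, List.countP_replicate]
    simp [Function.comp_def]
  have c3 : (v.map Sum.inl : List (A ⊕ Unit)).filter Sum.isRight = [] := by
    rw [List.filter_map]
    simp [Function.comp_def]
  unfold formula
  rw [c1, c2, eachWord_append, eachWord_append, c3]
  rw [each_left _ (fun a p => tev p v.length M (atL a)) (fun a w => rfl),
    each_left_inr _ (fun w => rfl), each_right_inl _ (fun a w => rfl),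
    each_right _ (fun p => tev p v.length M atR) (fun w => rfl)]
  simp [List.range_eq_range']

end

/-! ### Linear functions -/

/-- linear functions of three variables -/
def Lin (f : ℕ → ℕ → ℕ → ℕ) : Prop := ∃ a b g d, ∀ p m M, f p m M = a * p + b * m + g * M + d

/-- lists which can be printed -/
def LinL (F : ℕ → ℕ → ℕ → List (ℕ × ℕ)) : Prop :=
  ∃ Tm : List (List LLit), TwoPos Tm ∧ ∀ p m M, pairsOf (tev p m M Tm) = F p m M

lemma Lin.const (c : ℕ) : Lin fun _ _ _ => c := ⟨0, 0, 0, c, by intros; ring⟩

lemma Lin.add {f g : ℕ → ℕ → ℕ → ℕ} (hf : Lin f) (hg : Lin g) :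
    Lin fun p m M => f p m M + g p m M := by
  obtain ⟨a, b, c, d, h⟩ := hf
  obtain ⟨a', b', c', d', h'⟩ := hg
  exact ⟨a + a', b + b', c + c', d + d', by intros; simp only [h, h']; ring⟩

lemma Lin.mul (c : ℕ) {f : ℕ → ℕ → ℕ → ℕ} (hf : Lin f) : Lin fun p m M => c * f p m M := by
  obtain ⟨a, b, g, d, h⟩ := hf
  exact ⟨c * a, c * b, c * g, c * d, by intros; simp only [h]; ring⟩

lemma Lin.p : Lin fun p _ _ => p := ⟨1, 0, 0, 0, by intros; ring⟩
lemma Lin.m : Lin fun _ m _ => m := ⟨0, 1, 0, 0, by intros; ring⟩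
lemma Lin.M : Lin fun _ _ M => M := ⟨0, 0, 1, 0, by intros; ring⟩

lemma TwoPos.append {F G : List (List LLit)} (hF : TwoPos F) (hG : TwoPos G) : TwoPos (F ++ G) := by
  intro C hC
  rcases List.mem_append.mp hC with h | h
  · exact hF C h
  · exact hG C h

lemma LinL.nil : LinL fun _ _ _ => [] := ⟨[], by intro C hC; simp at hC, by intros; rfl⟩

lemma LinL.append {F G : ℕ → ℕ → ℕ → List (ℕ × ℕ)} (hF : LinL F) (hG : LinL G) :
    LinL fun p m M => F p m M ++ G p m M := by
  obtain ⟨T, h1, h2⟩ := hF
  obtain ⟨T', h1', h2'⟩ := hG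
  exact ⟨T ++ T', TwoPos.append h1 h1', by intros; rw [tev_append, pairsOf_append, h2, h2']⟩

lemma LinL.single {f g : ℕ → ℕ → ℕ → ℕ} (hf : Lin f) (hg : Lin g) :
    LinL fun p m M => [(f p m M, g p m M)] := by
  obtain ⟨a, b, c, d, h⟩ := hf
  obtain ⟨a', b', c', d', h'⟩ := hg
  refine ⟨[[⟨true, a, b, c, d⟩, ⟨true, a', b', c', d'⟩]], ?_, ?_⟩
  · intro C hC
    rw [List.mem_singleton] at hC
    exact ⟨_, _, hC, rfl, rfl⟩
  · intro p m M
    simp only [h, h']
    rfl

lemma LinL.flatMap {ι : Type} (l : List ι) {F : ι → ℕ → ℕ → ℕ → List (ℕ × ℕ)}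
    (h : ∀ i, LinL (F i)) : LinL fun p m M => l.flatMap fun i => F i p m M := by
  induction l with
  | nil => exact LinL.nil
  | cons a l ih =>
    simp only [List.flatMap_cons]
    exact (h a).append ih

lemma LinL.map {ι : Type} (l : List ι) {f g : ι → ℕ → ℕ → ℕ → ℕ} (hf : ∀ i, Lin (f i))
    (hg : ∀ i, Lin (g i)) : LinL fun p m M => l.map fun i => (f i p m M, g i p m M) := by
  induction l with
  | nil => exact LinL.nil
  | cons a l ih =>
    simp only [List.map_cons]
    exact (LinL.single (hf a) (hg a)).append ih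

lemma LinL.const (l : List (ℕ × ℕ)) : LinL fun _ _ _ => l := by
  have := LinL.map l (f := fun i _ _ _ => i.1) (g := fun i _ _ _ => i.2)
    (fun i => Lin.const _) (fun i => Lin.const _)
  simpa using this

lemma Lin.congr {f g : ℕ → ℕ → ℕ → ℕ} (hf : Lin f) (h : ∀ p m M, g p m M = f p m M) : Lin g := by
  obtain ⟨a, b, c, d, h'⟩ := hf
  exact ⟨a, b, c, d, by intros; rw [h, h']⟩

lemma LinL.congr {F G : ℕ → ℕ → ℕ → List (ℕ × ℕ)} (hf : LinL F)
    (h : ∀ p m M, G p m M = F p m M) : LinL G := by
  obtain ⟨T, h1, h2⟩ := hf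
  exact ⟨T, h1, by intros; rw [h, h2]⟩

/-! ### The edges of the flag graph -/

lemma vn_eq (e : ℕ) (b s : Bool) : vn (e, b) s = 4 * e + (2 * b.toNat + s.toNat) := by
  simp [vn]; ring

lemma lin_vn {f : ℕ → ℕ → ℕ → ℕ} (hf : Lin f) (b s : Bool) :
    Lin fun p m M => vn (f p m M, b) s :=
  ((hf.mul 4).add (Lin.const _)).congr fun _ _ _ => vn_eq _ _ _

lemma linL_ee {f : ℕ → ℕ → ℕ → ℕ} (hf : Lin f) : LinL fun p m M => ee (f p m M) :=
  (LinL.single (lin_vn hf false false) (lin_vn hf false true)).append
    ((LinL.single (lin_vn hf true false) (lin_vn hf true true)).append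
      ((LinL.single (lin_vn hf false false) (lin_vn hf true true)).append
        (LinL.single (lin_vn hf true false) (lin_vn hf false true))))

/-- the edges of the flag graph coming from the edges `s, …, s + len - 1` of the map -/
def EE (s len : ℕ) : List (ℕ × ℕ) := (List.range' s len).flatMap ee

lemma EE_eq (s len : ℕ) : EE s len = (List.range len).flatMap fun i => ee (s + i) := by
  unfold EE
  rw [List.range'_eq_map_range, List.flatMap_map]

lemma linL_EE {f : ℕ → ℕ → ℕ → ℕ} (hf : Lin f) (len : ℕ) : LinL fun p m M => EE (f p m M) len := by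
  refine LinL.congr ?_ (fun p m M => EE_eq _ _)
  exact LinL.flatMap _ fun i => linL_ee (hf.add (Lin.const i))

lemma EE_append (s a b : ℕ) : EE s a ++ EE (s + a) b = EE s (a + b) := by
  unfold EE
  rw [← List.flatMap_append, List.range'_append_1]

lemma EE_mul (s J : ℕ) : ∀ n, EE s (J * n) = (List.range n).flatMap fun p => EE (s + J * p) J
  | 0 => by simp [EE]
  | n + 1 => by
    rw [Nat.mul_succ, ← EE_append, EE_mul s J n, List.range_succ, List.flatMap_append]
    simp

lemma EE_filter {s : ℕ} (hs : 1 ≤ s) (len : ℕ) :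
    (EE s len).filter (fun p => p.1 ≠ 0) = EE s len := by
  rw [List.filter_eq_self]
  intro p hp
  unfold EE at hp
  rw [List.mem_flatMap] at hp
  obtain ⟨e, he, hp⟩ := hp
  rw [List.mem_range'_1] at he
  unfold ee at hp
  simp only [List.mem_cons, List.not_mem_nil, or_false] at hp
  rcases hp with hp | hp | hp | hp <;> (rw [hp]; simp only [vn_eq]; simp <;> omega)

/-! ### The vertices of the map -/

lemma cl_map {I I' : Type} (g : I → I') (v : List I × List I) :
    cl (v.1.map g, v.2.map g) = (cl v).map fun x => (g x.1, x.2) := by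
  rcases v with ⟨ins, outs⟩
  cases ins with
  | nil => simp [cl]
  | cons e ins =>
    simp [cl]
    rfl

lemma cpairs_map {I I' : Type} (g : I → I') (l : List I) :
    cpairs (l.map g) = (cpairs l).map fun x => (g x.1, g x.2) := by
  unfold cpairs
  rw [← List.map_rotate, List.zip_map]
  rfl

lemma ve_map (g : ℕ ⊕ ℕ → ℕ) (v : List (ℕ ⊕ ℕ) × List (ℕ ⊕ ℕ)) :
    ve (v.1.map g, v.2.map g) = (cpairs (cl v)).map fun x =>
      (vn (g x.1.1, x.1.2) false, vn (g x.2.1, x.2.2) true) := by
  unfold ve
  rw [cl_map, cpairs_map, List.map_map]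
  rfl

/-- the edges coming from the vertices of a tile -/
def VE (w : List Op) (n : ℕ) (f : ℕ → ℕ) (b : ℕ) : List (ℕ × ℕ) := (tile w n f b).flatMap ve

lemma VE_eq (w : List Op) (n : ℕ) (f : ℕ → ℕ) (b : ℕ) :
    VE w n f b = (tvs w n).flatMap fun v => (cpairs (cl v)).map fun x =>
      (vn (lab f b x.1.1, x.1.2) false, vn (lab f b x.2.1, x.2.2) true) := by
  unfold VE tile
  rw [List.flatMap_map]
  congr 1
  funext v
  exact ve_map _ v

lemma linL_VE (w : List Op) (n : ℕ) {f : ℕ → ℕ → ℕ → ℕ → ℕ} {b : ℕ → ℕ → ℕ → ℕ}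
    (hf : ∀ i, Lin fun p m M => f p m M i) (hb : Lin b) :
    LinL fun p m M => VE w n (f p m M) (b p m M) := by
  refine LinL.congr ?_ (fun p m M => VE_eq _ _ _ _)
  have hlab : ∀ x : ℕ ⊕ ℕ, Lin fun p m M => lab (f p m M) (b p m M) x := by
    rintro (i | i)
    · exact hf i
    · exact hb.add (Lin.const i)
  exact LinL.flatMap _ fun v => LinL.map _ (fun x => lin_vn (hlab _) _ _)
    (fun x => lin_vn (hlab _) _ _)

lemma VE_filter (w : List Op) (n : ℕ) {f : ℕ → ℕ} {b : ℕ} (hf : ∀ i, 1 ≤ f i) (hb : 1 ≤ b) :
    (VE w n f b).filter (fun p => p.1 ≠ 0) = VE w n f b := by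
  rw [List.filter_eq_self]
  intro p hp
  rw [VE_eq, List.mem_flatMap] at hp
  obtain ⟨v, _, hp⟩ := hp
  rw [List.mem_map] at hp
  obtain ⟨x, _, rfl⟩ := hp
  have : 1 ≤ lab f b x.1.1 := by
    rcases x.1.1 with i | i
    · exact hf i
    · exact hb.trans (Nat.le_add_right _ _)
  simp only [vn_eq]
  simp
  omega

/-! ### The pieces -/

lemma lin_cur {f : ℕ → ℕ → ℕ → ℕ} (hf : Lin f) : ∀ (j : ℕ) (i : Fin 3),
    Lin fun p m M => cur (f p m M) j i
  | 0, i => Lin.const _
  | j + 1, i => by
    fin_cases i
    · exact (hf.mul 4).add (Lin.const (6 * j))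
    · exact ((hf.mul 4).add (Lin.const (6 * j))).add (Lin.const 1)
    · exact ((hf.mul 4).add (Lin.const (6 * j))).add (Lin.const 2)

lemma linL_piece {f : ℕ → ℕ → ℕ → ℕ} {c : ℕ → ℕ → ℕ → Fin 3 → ℕ} (hf : Lin f)
    (hc : ∀ i, Lin fun p m M => c p m M i) : LinL fun p m M => piece (f p m M) (c p m M) := by
  have h : ∀ i, Lin fun p m M => f p m M + i := fun i => hf.add (Lin.const i)
  exact (LinL.single (h 3) (hc 0)).append <| (LinL.single (h 4) (hc 1)).append <|
    (LinL.single (h 5) (hc 2)).append <| (LinL.single (h 3) (h 1)).append <|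
    (LinL.single (h 3) (h 2)).append <| (LinL.single (h 4) hf).append <|
    (LinL.single (h 4) (h 2)).append <| (LinL.single (h 5) hf).append <|
    (LinL.single (h 5) (h 1))

lemma linL_pieces {f : ℕ → ℕ → ℕ → ℕ} (hf : Lin f) : ∀ j,
    LinL fun p m M => pieces (f p m M) j
  | 0 => LinL.nil
  | j + 1 => (linL_pieces hf j).append
      (linL_piece ((hf.mul 4).add (Lin.const (6 * j))) (lin_cur hf j))

lemma linL_tri {c : ℕ → ℕ → ℕ → Fin 3 → ℕ} (hc : ∀ i, Lin fun p m M => c p m M i) :
    LinL fun p m M => tri (c p m M) :=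
  (LinL.single (Lin.const 0) (hc 0)).append <| (LinL.single (Lin.const 0) (hc 1)).append
    (LinL.single (Lin.const 0) (hc 2))

/-! ### The theorem -/

lemma zipIdx_snd {A : Type} (v : List A) {β : Type} (G : ℕ → List β) :
    (v.zipIdx.flatMap fun x => G x.2) = (List.range v.length).flatMap G := by
  have h : v.zipIdx.map Prod.snd = List.range v.length := by
    rw [List.zipIdx_map_snd, List.range_eq_range']
  rw [← h, List.flatMap_map]

lemma coe_flatMap_append {ι β : Type} (l : List ι) (F G : ι → List β) :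
    ((l.flatMap fun x => F x ++ G x : List β) : Multiset β) =
      ((l.flatMap F : List β) : Multiset β) + ((l.flatMap G : List β) : Multiset β) := by
  rw [Multiset.coe_add, Multiset.coe_eq_coe]
  exact (List.flatMap_append_perm l F G).symm

theorem pri (hGRU : GruStmt) (_ : GleStmt) : PriStmt := by
  intro A T j hT
  set k := T.k with hk
  set J := T.J with hJ
  set js := T.js with hjs
  set jf := T.jf with hjf
  set jd := T.jd with hjd
  set b := 4 + js with hb
  have g1 : k ≤ js := hT.start.2.2.1
  have g2 : 2 * k ≤ J := hT.reg.2.2.1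
  -- the numbers
  have Lb : Lin fun _ _ _ => b := Lin.const _
  have Lc : Lin fun _ m M => b + J * (m + M) := Lb.add ((Lin.m.add Lin.M).mul J)
  have Ld : Lin fun _ m M => b + J * (m + M) + jf + jd * m :=
    (Lc.add (Lin.const jf)).add (Lin.m.mul jd)
  have Lm : Lin fun _ m M => b + J * (m + M) + jf + jd * m + 2 := Ld.add (Lin.const 2)
  -- the functions
  set f0 : ℕ → ℕ := fun i => if i = 2 then 1 else 2 + i with hf0
  set fR : ℕ → ℕ → ℕ := fun p i => b + J * p - k + i with hfR
  set fG : ℕ → ℕ → ℕ → ℕ := fun p m i => if i < k then b + J * (m + p) - k + i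
      else b + J * (p + 1) - 2 * k + (i - k) with hfG
  set fF : ℕ → ℕ → ℕ → ℕ := fun m M i => b + J * (m + M) - k + i with hfF
  set fD : ℕ → ℕ → ℕ → ℕ → ℕ := fun p m M i =>
    if i < 3 then b + J * (m + M) + jf + jd * p - 3 + i
      else b + J * (M + p + 1) - 2 * k + (i - 3) with hfD
  set E0 : List (ℕ × ℕ) := (EE 0 4).filter (fun p => p.1 ≠ 0) with hE0
  set V0 : List (ℕ × ℕ) := (ve ([], [0, 1]) ++ ve ([0], [2, 3])).filter (fun p => p.1 ≠ 0) with hV0
  set VL : ℕ → List (ℕ × ℕ) := fun d => ve ([d - 3], [d]) ++ (ve ([d - 2, d - 1], [d + 1]) ++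
    ve ([d, d + 1], [])) with hVL
  have LVL : LinL fun _ m M => VL (b + J * (m + M) + jf + jd * m) := by
    have e1 : ∀ d, 4 ≤ d → VL d = [(vn (d - 3, true) false, vn (d, false) true),
        (vn (d, false) false, vn (d - 3, true) true),
        (vn (d - 2, true) false, vn (d + 1, false) true),
        (vn (d + 1, false) false, vn (d - 1, true) true),
        (vn (d - 1, true) false, vn (d - 2, true) true),
        (vn (d, true) false, vn (d + 1, true) true),
        (vn (d + 1, true) false, vn (d, true) true)] := by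
      intro d _
      simp [hVL, ve, cl, cpairs, List.rotate]
    have h3 : Lin fun _ m M => b + J * (m + M) + jf + jd * m - 3 :=
      ((((Lin.const (b - 3)).add ((Lin.m.add Lin.M).mul J)).add (Lin.const jf)).add
        (Lin.m.mul jd)).congr (by intro p m M; omega)
    have h2 : Lin fun _ m M => b + J * (m + M) + jf + jd * m - 2 :=
      ((((Lin.const (b - 2)).add ((Lin.m.add Lin.M).mul J)).add (Lin.const jf)).add
        (Lin.m.mul jd)).congr (by intro p m M; omega)
    have h1 : Lin fun _ m M => b + J * (m + M) + jf + jd * m - 1 :=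
      ((((Lin.const (b - 1)).add ((Lin.m.add Lin.M).mul J)).add (Lin.const jf)).add
        (Lin.m.mul jd)).congr (by intro p m M; omega)
    have h1' := Ld.add (Lin.const 1)
    refine LinL.congr ?_ (fun p m M => e1 _ (by omega))
    exact (LinL.single (lin_vn h3 true false) (lin_vn Ld false true)).append <|
      (LinL.single (lin_vn Ld false false) (lin_vn h3 true true)).append <|
      (LinL.single (lin_vn h2 true false) (lin_vn h1' false true)).append <|
      (LinL.single (lin_vn h1' false false) (lin_vn h1 true true)).append <|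
      (LinL.single (lin_vn h1 true false) (lin_vn h2 true true)).append <|
      (LinL.single (lin_vn Ld true false) (lin_vn h1' true true)).append <|
      (LinL.single (lin_vn h1' true false) (lin_vn Ld true true))
  have LfR : ∀ i, Lin fun p _ _ => fR p i := by
    intro i
    exact (((Lin.const (b - k)).add (Lin.p.mul J)).add (Lin.const i)).congr
      (by intro p m M; simp only [hfR]; omega)
  have LfG : ∀ i, Lin fun p m _ => fG p m i := by
    intro i
    by_cases hi : i < k
    · exact (((Lin.const (b - k)).add ((Lin.m.add Lin.p).mul J)).add (Lin.const i)).congr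
        (by intro p m M; simp only [hfG, if_pos hi]; omega)
    · refine (((Lin.const (b + J - 2 * k)).add (Lin.p.mul J)).add (Lin.const (i - k))).congr ?_
      intro p m M
      simp only [hfG, if_neg hi]
      rw [Nat.mul_add, Nat.mul_one]
      omega
  have LfF : ∀ i, Lin fun _ m M => fF m M i := by
    intro i
    exact (((Lin.const (b - k)).add ((Lin.m.add Lin.M).mul J)).add (Lin.const i)).congr
      (by intro p m M; simp only [hfF]; omega)
  have LfD : ∀ i, Lin fun p m M => fD p m M i := by
    intro i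
    by_cases hi : i < 3
    · exact ((((Lin.const (b - 3)).add ((Lin.m.add Lin.M).mul J)).add (Lin.const jf)).add
        (Lin.p.mul jd) |>.add (Lin.const i)).congr
        (by intro p m M; simp only [hfD, if_pos hi]; omega)
    · refine (((Lin.const (b + J - 2 * k)).add ((Lin.M.add Lin.p).mul J)).add
        (Lin.const (i - 3))).congr ?_
      intro p m M
      simp only [hfD, if_neg hi]
      rw [Nat.mul_add J (M + p) 1, Nat.mul_one]
      omega
  -- the lists
  have Lhd : LinL fun _ m M => E0 ++ (EE 4 js ++ (EE (b + J * (m + M)) jf ++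
      (EE (b + J * (m + M) + jf + jd * m) 2 ++ (V0 ++ (VE T.start 3 f0 4 ++
      (VE T.fin k (fF m M) (b + J * (m + M)) ++ (VL (b + J * (m + M) + jf + jd * m) ++
      (pieces (b + J * (m + M) + jf + jd * m + 2) j ++
        tri (cur (b + J * (m + M) + jf + jd * m + 2) j))))))))) :=
    (LinL.const _).append <| (LinL.const _).append <| (linL_EE Lc _).append <|
      (linL_EE Ld _).append <| (LinL.const _).append <| (LinL.const _).append <|
      (linL_VE _ _ LfF Lc).append <| LVL.append <| (linL_pieces Lm j).append <|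
      linL_tri (lin_cur Lm j)
  have LL : ∀ a, LinL fun p m M => EE (b + J * p) J ++ (VE (T.row a) k (fR p) (b + J * p) ++
      (EE (b + J * (m + M) + jf + jd * p) jd ++
        VE T.drop (3 + k) (fD p m M) (b + J * (m + M) + jf + jd * p))) := by
    intro a
    have h1 : Lin fun p _ _ => b + J * p := Lb.add (Lin.p.mul J)
    have h2 : Lin fun p m M => b + J * (m + M) + jf + jd * p :=
      (Lc.add (Lin.const jf)).add (Lin.p.mul jd)
    exact (linL_EE h1 _).append <| (linL_VE _ _ LfR h1).append <| (linL_EE h2 _).append <|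
      linL_VE _ _ LfD h2
  have LR : LinL fun p m _ => EE (b + J * (m + p)) J ++
      VE T.reg (2 * k) (fG p m) (b + J * (m + p)) := by
    have h1 : Lin fun p m _ => b + J * (m + p) := Lb.add ((Lin.m.add Lin.p).mul J)
    exact (linL_EE h1 _).append (linL_VE _ _ LfG h1)
  obtain ⟨hd, hd1, hd2⟩ := Lhd
  choose atL hL1 hL2 using LL
  obtain ⟨atR, hR1, hR2⟩ := LR
  refine ⟨hd, atL, atR, hd1, hL1, hR1, ?_⟩
  intro v M hv
  rw [formula_eq, pairsOf_append, pairsOf_append, pairsOf_flatMap, pairsOf_flatMap, hd2]
  simp only [hL2, hR2]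
  rw [hGRU A T hT v M hv]
  set n := v.length with hn
  set c := b + J * (n + M) with hc
  set d := c + jf + jd * n with hd'
  have hm : (St.m (⟨[], 4 + T.js + T.J * (v.length + M) + T.jf + T.jd * v.length + 2,
      T.allVs v M⟩ : St ℕ)) = d + 2 := rfl
  rw [hm]
  -- the edges
  have hA : (List.range (d + 2)).flatMap ee = EE 0 4 ++ (EE 4 js ++ (EE b (J * n) ++
      (EE (b + J * n) (J * M) ++ (EE c jf ++ (EE (c + jf) (jd * n) ++ EE d 2))))) := by
    have e0 : (List.range (d + 2)).flatMap ee = EE 0 (d + 2) := by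
      unfold EE
      rw [List.range_eq_range']
    rw [e0, show EE d 2 = EE (c + jf + jd * n) 2 from rfl, EE_append, EE_append,
      show EE c (jf + (jd * n + 2)) = EE (b + J * n + J * M) (jf + (jd * n + 2)) by
        rw [hc, Nat.mul_add, ← Nat.add_assoc], EE_append, EE_append,
      show EE b (J * n + (J * M + (jf + (jd * n + 2)))) =
        EE (4 + js) (J * n + (J * M + (jf + (jd * n + 2)))) from rfl, EE_append]
    have e1 := EE_append 0 4 (js + (J * n + (J * M + (jf + (jd * n + 2)))))
    rw [Nat.zero_add] at e1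
    rw [e1]
    congr 1
    rw [hd', hc, Nat.mul_add]
    omega
  have hB : (T.allVs v M).flatMap ve = (ve ([], [0, 1]) ++ ve ([0], [2, 3])) ++
      (VE T.start 3 f0 4 ++
      ((v.zipIdx.flatMap fun x => VE (T.row x.1) k (fR x.2) (b + J * x.2)) ++
      (((List.range M).flatMap fun p => VE T.reg (2 * k) (fG p n) (b + J * (n + p))) ++
      (VE T.fin k (fF n M) c ++
      (((List.range n).flatMap fun p => VE T.drop (3 + k) (fD p n M) (c + jf + jd * p)) ++
      VL d))))) := by
    unfold Tiles.allVs
    simp only [List.flatMap_append, List.flatMap_assoc]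
    unfold VE
    simp only [List.flatMap_cons, List.flatMap_nil, List.append_nil]
    rfl
  have hJp : ∀ p, k ≤ b + J * p := fun p => by omega
  have filt : base (d + 2) (T.allVs v M) = E0 ++ (EE 4 js ++ (EE b (J * n) ++
      (EE (b + J * n) (J * M) ++ (EE c jf ++ (EE (c + jf) (jd * n) ++ EE d 2))))) ++
      (V0 ++ (VE T.start 3 f0 4 ++
      ((v.zipIdx.flatMap fun x => VE (T.row x.1) k (fR x.2) (b + J * x.2)) ++
      (((List.range M).flatMap fun p => VE T.reg (2 * k) (fG p n) (b + J * (n + p))) ++
      (VE T.fin k (fF n M) c ++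
      (((List.range n).flatMap fun p => VE T.drop (3 + k) (fD p n M) (c + jf + jd * p)) ++
      VL d)))))) := by
    unfold base
    rw [hA, hB]
    simp only [List.filter_append, List.filter_flatMap]
    have hbb : 1 ≤ b := by omega
    have hcc : 1 ≤ c := by omega
    have hdd : 4 ≤ d := by omega
    rw [EE_filter (s := 4) (by omega), EE_filter (s := b) hbb,
      EE_filter (s := b + J * n) (by omega), EE_filter (s := c) hcc,
      EE_filter (s := c + jf) (by omega), EE_filter (s := d) (by omega)]
    rw [VE_filter T.start 3 (f := f0) (b := 4) (by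
      intro i
      simp only [hf0]
      split_ifs <;> omega) (by omega)]
    rw [VE_filter T.fin k (f := fF n M) (b := c) (by
      intro i
      simp only [hfF]
      omega) hcc]
    have r1 : ∀ x : A × ℕ, List.filter (fun p => decide (p.1 ≠ 0))
        (VE (T.row x.1) k (fR x.2) (b + J * x.2)) = VE (T.row x.1) k (fR x.2) (b + J * x.2) := by
      intro x
      apply VE_filter
      · intro i
        simp only [hfR]
        omega
      · omega
    have r2 : ∀ p : ℕ, List.filter (fun p => decide (p.1 ≠ 0))
        (VE T.reg (2 * k) (fG p n) (b + J * (n + p))) =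
        VE T.reg (2 * k) (fG p n) (b + J * (n + p)) := by
      intro p
      apply VE_filter
      · intro i
        simp only [hfG]
        split_ifs
        · omega
        · rw [Nat.mul_add, Nat.mul_one]
          omega
      · omega
    have r3 : ∀ p : ℕ, List.filter (fun p => decide (p.1 ≠ 0))
        (VE T.drop (3 + k) (fD p n M) (c + jf + jd * p)) =
        VE T.drop (3 + k) (fD p n M) (c + jf + jd * p) := by
      intro p
      apply VE_filter
      · intro i
        simp only [hfD]
        split_ifs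
        · omega
        · rw [Nat.mul_add J (M + p) 1, Nat.mul_one]
          omega
      · omega
    have r4 : List.filter (fun p => decide (p.1 ≠ 0)) (VL d) = VL d := by
      rw [List.filter_eq_self]
      intro p hp
      simp only [hVL, ve, cl, cpairs, List.rotate] at hp
      simp at hp
      rcases hp with hp | hp | hp | hp | hp | hp | hp <;> (rw [hp]; simp only [vn_eq]; simp <;> omega)
    simp only [r1, r2, r3, r4]
    rw [hE0, hV0, List.filter_append]
  unfold elist
  rw [filt, EE_mul b J n, EE_mul (b + J * n) J M, EE_mul (c + jf) jd n]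
  rw [← Multiset.coe_eq_coe]
  simp only [← Multiset.coe_add, coe_flatMap_append]
  have z1 : (v.zipIdx.flatMap fun x => EE (b + J * x.2) J) =
      (List.range n).flatMap fun p => EE (b + J * p) J :=
    zipIdx_snd v (fun p => EE (b + J * p) J)
  have z2 : (v.zipIdx.flatMap fun x => EE (c + jf + jd * x.2) jd) =
      (List.range n).flatMap fun p => EE (c + jf + jd * p) jd :=
    zipIdx_snd v (fun p => EE (c + jf + jd * p) jd)
  have z3 : (v.zipIdx.flatMap fun x => VE T.drop (3 + k) (fD x.2 n M) (c + jf + jd * x.2)) =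
      (List.range n).flatMap fun p => VE T.drop (3 + k) (fD p n M) (c + jf + jd * p) :=
    zipIdx_snd v (fun p => VE T.drop (3 + k) (fD p n M) (c + jf + jd * p))
  have z4 : ∀ p, b + J * n + J * p = b + J * (n + p) := fun p => by ring
  simp only [z4]
  rw [z1, z2, z3]
  abel

end Pool.Agent.HAM.H46
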